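import Pool.Agent.Helper93.Sph.R

/-! # Only separated radii matter for the maximal ball partial sum operator -/

set_option autoImplicit false

open MeasureTheory Real Set Filter Topology Metric FourierTransform
open scoped ENNReal NNReal RealInnerProductSpace SchwartzMap

namespace Pool.Agent.N261.SR

open Pool.Agent.Helper93.Sph (En ek ps energy energy_bound energy_partition conv_iff energy_fin
  sub_le_energy ps_cont_x ps_cont_R ps_neg ps_zero enorm_add_sq_le)

/-- the maximal function over all radii -/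
noncomputable def MX {n : ℕ} (G : En n → ℂ) (x : En n) : ℝ≥0∞ := ⨆ (R : ℝ) (_ : 0 < R), ‖ps G R x‖ₑ

/-- the maximal function over an arithmetic progression of radii -/
noncomputable def MA {n : ℕ} (h : ℝ) (G : En n → ℂ) (x : En n) : ℝ≥0∞ := ⨆ k : ℕ, ‖ps G (h * k) x‖ₑ

lemma MA_le_MX {m : ℕ} {h : ℝ} (hh : 0 < h) (G : En (m + 1) → ℂ) (x : En (m + 1)) :
    MA h G x ≤ MX G x := by
  refine iSup_le fun k => ?_
  rcases Nat.eq_zero_or_pos k with hk | hk
  · subst hk
    simp [ps_zero]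
  · exact le_iSup₂ (f := fun (R : ℝ) (_ : 0 < R) => ‖ps G R x‖ₑ) (h * k) (by positivity)

/-- **pointwise comparison** -/
lemma MX_sq_le {m : ℕ} {h : ℝ} (hh : 0 < h) {G : En (m + 1) → ℂ} (hG : MemLp G 2)
    (x : En (m + 1)) :
    MX G x ^ 2 ≤ 2 * (MA h G x ^ 2 + ENNReal.ofReal h * energy G x) := by
  have key : ∀ R : ℝ, 0 < R → ‖ps G R x‖ₑ ^ 2 ≤
      2 * (MA h G x ^ 2 + ENNReal.ofReal h * energy G x) := by
    intro R hR
    set k := ⌊R / h⌋₊ with hk
    have a1 : (k : ℝ) ≤ R / h := Nat.floor_le (by positivity)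
    have a2 : R / h < (k : ℝ) + 1 := Nat.lt_floor_add_one _
    rw [le_div_iff₀ hh] at a1
    rw [div_lt_iff₀ hh] at a2
    have b1 : h * k ≤ R := by linarith
    have e : ps G R x = ps G (h * k) x + (ps G R x - ps G (h * k) x) := by ring
    rw [e]
    refine (enorm_add_sq_le _ _).trans ?_
    refine mul_le_mul_right (add_le_add ?_ ?_) _
    · exact pow_le_pow_left' (le_iSup (fun k : ℕ => ‖ps G (h * k) x‖ₑ) k) 2
    · refine (sub_le_energy hG x (by positivity) b1).trans ?_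
      exact mul_le_mul_left (ENNReal.ofReal_le_ofReal (by linarith)) _
  unfold MX
  rw [ENNReal.iSup_pow_of_ne_zero two_ne_zero]
  refine iSup_le fun R => ?_
  rw [ENNReal.iSup_pow_of_ne_zero two_ne_zero]
  exact iSup_le fun hR => key R hR

/-- the sup over positive radii equals the sup over the positive rationals -/
lemma MX_meas {m : ℕ} {G : En (m + 1) → ℂ} (hG : MemLp G 2) : Measurable (MX G) := by
  have e : MX G = fun x => ⨆ q : {q : ℚ // 0 < q}, ‖ps G ((q : ℚ) : ℝ) x‖ₑ := by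
    funext x
    refine le_antisymm ?_ ?_
    · refine iSup₂_le fun R hR => ?_
      have hc : Continuous fun R : ℝ => ‖ps G R x‖ₑ := (ps_cont_R hG x).enorm
      refine le_of_forall_lt fun c hlt => ?_
      have h1 : ∀ᶠ r in 𝓝 R, c < ‖ps G r x‖ₑ := hc.continuousAt.eventually (lt_mem_nhds hlt)
      have h2 : ∀ᶠ r in 𝓝 R, 0 < r := lt_mem_nhds hR
      obtain ⟨ε, hε, h3⟩ := Metric.eventually_nhds_iff.1 (h1.and h2)
      obtain ⟨q, hq1, hq2⟩ := exists_rat_btwn (show R < R + ε by linarith)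
      have h4 := h3 (y := (q : ℝ)) (by rw [Real.dist_eq, abs_of_pos (by linarith)]; linarith)
      have hq0 : 0 < q := by exact_mod_cast h4.2
      exact h4.1.trans_le (le_iSup (fun q : {q : ℚ // 0 < q} => ‖ps G ((q : ℚ) : ℝ) x‖ₑ) ⟨q, hq0⟩)
    · refine iSup_le fun q => ?_
      have hq : (0 : ℝ) < ((q : ℚ) : ℝ) := by exact_mod_cast q.2
      exact le_iSup₂ (f := fun (R : ℝ) (_ : 0 < R) => ‖ps G R x‖ₑ) _ hq
  rw [e]
  exact Measurable.iSup fun q => (ps_cont_x hG _).measurable.enorm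

/-- the local bound -/
lemma local_bd {m : ℕ} {h : ℝ} (hh : 0 < h) {G : En (m + 1) → ℂ} (hG : MemLp G 2) {C : ℝ≥0}
    (hC : ∫⁻ x in closedBall (0 : En (m + 1)) 1, MA h G x ^ 2 ≤ C * ∫⁻ ξ, ‖G ξ‖ₑ ^ 2) :
    ∫⁻ x in closedBall (0 : En (m + 1)) 1, MX G x ^ 2 ≤
      (2 * C + ENNReal.ofReal (20 * (m + 1) * √(m + 1) * h)) * ∫⁻ ξ, ‖G ξ‖ₑ ^ 2 := by
  have hE := energy_bound hG (0 : En (m + 1)) (ρ := 1) one_pos
  have hm : Measurable (MA h G) := Measurable.iSup fun k => (ps_cont_x hG _).measurable.enorm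
  calc ∫⁻ x in closedBall (0 : En (m + 1)) 1, MX G x ^ 2
      ≤ ∫⁻ x in closedBall (0 : En (m + 1)) 1,
          2 * (MA h G x ^ 2 + ENNReal.ofReal h * energy G x) :=
        lintegral_mono fun x => MX_sq_le hh hG x
    _ = 2 * (∫⁻ x in closedBall (0 : En (m + 1)) 1, MA h G x ^ 2) +
          2 * (ENNReal.ofReal h * ∫⁻ x in closedBall (0 : En (m + 1)) 1, energy G x) := by
        rw [lintegral_const_mul' _ _ (by simp), lintegral_add_left (hm.pow_const 2),
          lintegral_const_mul' _ _ ENNReal.ofReal_ne_top, mul_add]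
    _ ≤ 2 * (C * ∫⁻ ξ, ‖G ξ‖ₑ ^ 2) + 2 * (ENNReal.ofReal h *
          (ENNReal.ofReal (10 * (m + 1) * √(m + 1) * 1) * ∫⁻ ξ, ‖G ξ‖ₑ ^ 2)) := by
        gcongr
    _ = _ := by
        have e : ENNReal.ofReal (20 * (m + 1) * √(m + 1) * h) =
            2 * (ENNReal.ofReal h * ENNReal.ofReal (10 * (m + 1) * √(m + 1) * 1)) := by
          rw [← ENNReal.ofReal_mul hh.le, show (2 : ℝ≥0∞) = ENNReal.ofReal 2 by simp,
            ← ENNReal.ofReal_mul (by norm_num)]
          congr 1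
          ring
        rw [e]
        ring

/-! ### dilations -/

/-- dilation on the frequency side -/
noncomputable def dil {n : ℕ} (l : ℝ) (G : En n → ℂ) : En n → ℂ := fun ξ => G (l⁻¹ • ξ)

lemma ps_dil {n : ℕ} (G : En n → ℂ) {l : ℝ} (hl : 0 < l) (R : ℝ) (x : En n) :
    ps (dil l G) R x = ((l ^ n : ℝ) : ℂ) * ps G (R / l) (l • x) := by
  unfold ps
  rw [← integral_indicator isClosed_closedBall.measurableSet,
    ← integral_indicator isClosed_closedBall.measurableSet]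
  have h1 := Measure.integral_comp_inv_smul (volume : Measure (En n))
    ((closedBall (0 : En n) (R / l)).indicator fun ξ => ek (l • x) ξ * G ξ) l
  rw [finrank_euclideanSpace_fin, abs_of_pos (pow_pos hl n)] at h1
  rw [← Complex.real_smul, ← h1]
  congr 1
  funext ξ
  have h2 : l⁻¹ • ξ ∈ closedBall (0 : En n) (R / l) ↔ ξ ∈ closedBall (0 : En n) R := by
    simp only [mem_closedBall, dist_zero_right, norm_smul, norm_inv, Real.norm_eq_abs,
      abs_of_pos hl]
    rw [inv_mul_eq_div, div_le_div_iff_of_pos_right hl]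
  have h3 : ek (l • x) (l⁻¹ • ξ) = ek x ξ := by
    unfold ek
    rw [real_inner_smul_left, real_inner_smul_right, ← mul_assoc, mul_inv_cancel₀ hl.ne', one_mul]
  by_cases h : ξ ∈ closedBall (0 : En n) R
  · rw [indicator_of_mem h, indicator_of_mem (h2.2 h), h3]
    rfl
  · rw [indicator_of_notMem h, indicator_of_notMem fun h' => h (h2.1 h')]

lemma MX_dil {n : ℕ} (G : En n → ℂ) {l : ℝ} (hl : 0 < l) (x : En n) :
    MX (dil l G) x = ENNReal.ofReal (l ^ n) * MX G (l • x) := by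
  unfold MX
  have e : ∀ R : ℝ, ‖ps (dil l G) R x‖ₑ = ENNReal.ofReal (l ^ n) * ‖ps G (R / l) (l • x)‖ₑ := by
    intro R
    rw [ps_dil G hl, enorm_mul, ← ofReal_norm ((l ^ n : ℝ) : ℂ), Complex.norm_real,
      Real.norm_eq_abs, abs_of_pos (pow_pos hl n)]
  simp_rw [e]
  refine le_antisymm ?_ ?_
  · refine iSup₂_le fun R hR => ?_
    exact mul_le_mul_right (le_iSup₂ (f := fun (R : ℝ) (_ : 0 < R) => ‖ps G R (l • x)‖ₑ) (R / l)
      (div_pos hR hl)) _
  · rw [ENNReal.mul_iSup]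
    refine iSup_le fun R => ?_
    rw [ENNReal.mul_iSup]
    refine iSup_le fun hR => ?_
    have := le_iSup₂ (f := fun (R : ℝ) (_ : 0 < R) => ENNReal.ofReal (l ^ n) *
      ‖ps G (R / l) (l • x)‖ₑ) (R * l) (mul_pos hR hl)
    rwa [mul_div_cancel_right₀ _ hl.ne'] at this

lemma lint_smul {n : ℕ} {l : ℝ} (hl : 0 < l) (F : En n → ℝ≥0∞) :
    ∫⁻ x, F (l • x) = ENNReal.ofReal ((l ^ n)⁻¹) * ∫⁻ x, F x := by
  have h1 := Measure.map_addHaar_smul (volume : Measure (En n)) hl.ne'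
  rw [finrank_euclideanSpace_fin] at h1
  have h2 : ∫⁻ x, F x ∂(Measure.map (fun x => l • x) (volume : Measure (En n))) =
      ∫⁻ x, F (l • x) :=
    (Homeomorph.smulOfNeZero l hl.ne').measurableEmbedding.lintegral_map F
  rw [← h2, h1, lintegral_smul_measure, abs_of_pos (by positivity)]
  rfl

lemma lint_dil {n : ℕ} {l : ℝ} (hl : 0 < l) (G : En n → ℂ) :
    ∫⁻ ξ, ‖dil l G ξ‖ₑ ^ 2 = ENNReal.ofReal (l ^ n) * ∫⁻ ξ, ‖G ξ‖ₑ ^ 2 := by
  have h := lint_smul (n := n) (inv_pos.2 hl) (fun ξ => ‖G ξ‖ₑ ^ 2)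
  rw [inv_pow, inv_inv] at h
  exact h

/-- the bound on a large ball from the bound on the unit ball for the dilated function -/
lemma ball_bd {n : ℕ} {G : En n → ℂ} {l : ℝ} (hl : 0 < l) {K : ℝ≥0∞}
    (h : ∫⁻ x in closedBall (0 : En n) 1, MX (dil l G) x ^ 2 ≤ K * ∫⁻ ξ, ‖dil l G ξ‖ₑ ^ 2) :
    ∫⁻ x in closedBall (0 : En n) l, MX G x ^ 2 ≤ K * ∫⁻ ξ, ‖G ξ‖ₑ ^ 2 := by
  have hln : 0 < l ^ n := pow_pos hl n
  rw [lint_dil hl] at h
  have e : ∫⁻ x in closedBall (0 : En n) 1, MX (dil l G) x ^ 2 =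
      ENNReal.ofReal (l ^ n) * ∫⁻ x in closedBall (0 : En n) l, MX G x ^ 2 := by
    rw [← lintegral_indicator isClosed_closedBall.measurableSet,
      ← lintegral_indicator isClosed_closedBall.measurableSet]
    have h1 := lint_smul hl ((closedBall (0 : En n) l).indicator fun x => MX G x ^ 2)
    have h2 : ∀ x : En n, (closedBall (0 : En n) 1).indicator (fun x => MX (dil l G) x ^ 2) x =
        ENNReal.ofReal (l ^ n) ^ 2 *
          (closedBall (0 : En n) l).indicator (fun x => MX G x ^ 2) (l • x) := by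
      intro x
      have h3 : l • x ∈ closedBall (0 : En n) l ↔ x ∈ closedBall (0 : En n) 1 := by
        simp only [mem_closedBall, dist_zero_right, norm_smul, Real.norm_eq_abs, abs_of_pos hl]
        rw [mul_le_iff_le_one_right hl]
      by_cases hx : x ∈ closedBall (0 : En n) 1
      · rw [indicator_of_mem hx, indicator_of_mem (h3.2 hx), MX_dil G hl, mul_pow]
      · rw [indicator_of_notMem hx, indicator_of_notMem fun h' => hx (h3.1 h'), mul_zero]
    simp_rw [h2]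
    rw [lintegral_const_mul' _ _ (ENNReal.pow_ne_top ENNReal.ofReal_ne_top), h1, ← mul_assoc]
    congr 1
    rw [← ENNReal.ofReal_pow hln.le, ← ENNReal.ofReal_mul (by positivity)]
    congr 1
    field_simp
  rw [e] at h
  have h0 : ENNReal.ofReal (l ^ n) ≠ 0 := by simpa using hln
  have h4 : ENNReal.ofReal (l ^ n) * ∫⁻ x in closedBall (0 : En n) l, MX G x ^ 2 ≤
      ENNReal.ofReal (l ^ n) * (K * ∫⁻ ξ, ‖G ξ‖ₑ ^ 2) := h.trans (le_of_eq (by ring))
  exact (ENNReal.mul_le_mul_iff_right h0 ENNReal.ofReal_ne_top).1 h4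

lemma whole_bd {n : ℕ} {G : En n → ℂ} {B : ℝ≥0∞}
    (h : ∀ l : ℕ, ∫⁻ x in closedBall (0 : En n) (l + 1), MX G x ^ 2 ≤ B) :
    ∫⁻ x, MX G x ^ 2 ≤ B := by
  have hU : (⋃ l : ℕ, closedBall (0 : En n) (l + 1)) = univ := by
    refine eq_univ_of_forall fun x => mem_iUnion.2 ?_
    obtain ⟨k, hk⟩ := exists_nat_ge ‖x‖
    exact ⟨k, by rw [mem_closedBall, dist_zero_right]; linarith⟩
  have hd : Directed (· ⊆ ·) fun l : ℕ => closedBall (0 : En n) ((l : ℝ) + 1) :=
    (Monotone.directed_le fun a b hab => closedBall_subset_closedBall (by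
      have : (a : ℝ) ≤ b := by exact_mod_cast hab
      linarith))
  rw [← setLIntegral_univ, ← hU, setLIntegral_iUnion_of_directed _ hd]
  exact iSup_le h

end Pool.Agent.N261.SR
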